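import Mathlib

/-!
Combinatorial core of Hider's strategy for the property minimum degree at least k, k at least 2.
-/

namespace Pool.Agent.Lib.MP_3b52ff_co

open Classical

/-- Unordered pairs of distinct naturals. -/
abbrev P : Type := {e : Sym2 ℕ // ¬ e.IsDiag}

/-- smaller vertices joined to `v` by a red pair in the history `h` -/
noncomputable def redSet (h : List (P × Bool)) (v : ℕ) : Finset ℕ :=
  (Finset.range v).filter (fun x => ∃ t ∈ h, t.1.1 = s(x, v) ∧ t.2 = false)

/-- number of children of `v` among the reserved pairs -/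
noncomputable def cnt (R : Finset (ℕ × ℕ)) (v : ℕ) : ℕ := (R.filter (fun p => p.1 = v)).card

/-- the state of Hider -/
structure St where
  h : List (P × Bool)
  R : Finset (ℕ × ℕ)
  N : ℕ

/-- a bound for the end points of a pair -/
noncomputable def bnd (e : Sym2 ℕ) : ℕ := e.out.1 + e.out.2 + 1

lemma lt_bnd {e : Sym2 ℕ} {x : ℕ} (hx : x ∈ e) : x < bnd e := by
  have he : e = s(e.out.1, e.out.2) := (Quot.out_eq e).symm
  rw [he, Sym2.mem_iff] at hx
  unfold bnd
  omega

/-- the answer of Hider -/
noncomputable def ans (R : Finset (ℕ × ℕ)) (e : P) : Bool :=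
  decide (∃ p ∈ R, e.1 = s(p.1, p.2))

/-- one turn -/
noncomputable def step (k : ℕ) (σ : List (P × Bool) → P) (n : ℕ) (s : St) : St :=
  { h := s.h ++ [(σ s.h, ans s.R (σ s.h))]
    R := if cnt s.R (Nat.unpair n).1 + (Nat.unpair n).1
            < k + (redSet (s.h ++ [(σ s.h, ans s.R (σ s.h))]) (Nat.unpair n).1).card
         then insert ((Nat.unpair n).1, s.N + bnd (σ s.h).1 + (Nat.unpair n).1 + 1) s.R else s.R
    N := s.N + bnd (σ s.h).1 + (Nat.unpair n).1 + 2 }

/-- the run -/
noncomputable def run (k : ℕ) (σ : List (P × Bool) → P) : ℕ → St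
  | 0 => ⟨[], ∅, 0⟩
  | n + 1 => step k σ n (run k σ n)

/-- the invariant -/
structure Inv (k : ℕ) (s : St) : Prop where
  lt : ∀ p ∈ s.R, p.1 < p.2 ∧ p.2 < s.N
  uniq : ∀ p ∈ s.R, ∀ q ∈ s.R, p.2 = q.2 → p = q
  col : ∀ t ∈ s.h, (t.2 = true ↔ ∃ p ∈ s.R, t.1.1 = s(p.1, p.2))
  bd : ∀ t ∈ s.h, ∀ x ∈ t.1.1, x < s.N
  few : ∀ v, cnt s.R v = 0 ∨ cnt s.R v + v ≤ k + (redSet s.h v).card

lemma redSet_mono {h h' : List (P × Bool)} (hh : ∀ t ∈ h, t ∈ h') (v : ℕ) :
    redSet h v ⊆ redSet h' v := by
  intro x hx
  simp only [redSet, Finset.mem_filter] at hx ⊢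
  obtain ⟨h1, t, ht, h2⟩ := hx
  exact ⟨h1, t, hh t ht, h2⟩

lemma cnt_mono {R R' : Finset (ℕ × ℕ)} (hR : R ⊆ R') (v : ℕ) : cnt R v ≤ cnt R' v :=
  Finset.card_le_card (Finset.filter_subset_filter _ hR)

lemma cnt_insert {R : Finset (ℕ × ℕ)} {a b : ℕ} (hab : (a, b) ∉ R) (v : ℕ) :
    cnt (insert (a, b) R) v = cnt R v + if a = v then 1 else 0 := by
  unfold cnt
  rw [Finset.filter_insert]
  by_cases h : a = v
  · simp only [h, if_true]
    rw [Finset.card_insert_of_notMem]
    intro hc
    exact hab (h ▸ (Finset.mem_filter.1 hc).1)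
  · simp [h]

lemma step_h_mono (k : ℕ) (σ : List (P × Bool) → P) (n : ℕ) (s : St) :
    ∀ t ∈ s.h, t ∈ (step k σ n s).h := by
  intro t ht
  simp only [step, List.mem_append]
  exact Or.inl ht

lemma step_R_mono (k : ℕ) (σ : List (P × Bool) → P) (n : ℕ) (s : St) :
    s.R ⊆ (step k σ n s).R := by
  simp only [step]
  split_ifs
  · exact Finset.subset_insert _ _
  · exact subset_rfl

lemma inv_step (k : ℕ) (σ : List (P × Bool) → P) (n : ℕ) (s : St) (hs : Inv k s) :
    Inv k (step k σ n s) := by
  set v := (Nat.unpair n).1 with hv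
  set e := σ s.h with he
  set y := s.N + bnd e.1 + v + 1 with hy
  have hR : (step k σ n s).R = s.R ∨
      ((step k σ n s).R = insert (v, y) s.R ∧
        cnt s.R v + v < k + (redSet (step k σ n s).h v).card) := by
    simp only [step]
    split_ifs with hc
    · exact Or.inr ⟨rfl, hc⟩
    · exact Or.inl rfl
  have hN : (step k σ n s).N = y + 1 := rfl
  have hh : (step k σ n s).h = s.h ++ [(e, ans s.R e)] := rfl
  have hnot : (v, y) ∉ s.R := fun hc => by have := (hs.lt _ hc).2; simp only at this; omega
  have hbd : ∀ t ∈ (step k σ n s).h, ∀ x ∈ t.1.1, x < y := by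
    intro t ht x hx
    rw [hh, List.mem_append] at ht
    rcases ht with ht | ht
    · have := hs.bd t ht x hx; omega
    · rw [List.mem_singleton] at ht
      subst ht
      have := lt_bnd hx
      simp only at this
      omega
  have hcol0 : ∀ t ∈ (step k σ n s).h, (t.2 = true ↔ ∃ p ∈ s.R, t.1.1 = s(p.1, p.2)) := by
    intro t ht
    rw [hh, List.mem_append] at ht
    rcases ht with ht | ht
    · exact hs.col t ht
    · rw [List.mem_singleton] at ht
      subst ht
      simp [ans]
  refine ⟨?_, ?_, ?_, ?_, ?_⟩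
  · intro p hp
    rcases hR with hR | ⟨hR, -⟩
    · rw [hR] at hp
      have := hs.lt p hp
      omega
    · rw [hR, Finset.mem_insert] at hp
      rcases hp with rfl | hp
      · simp only; omega
      · have := hs.lt p hp
        omega
  · intro p hp q hq hpq
    rcases hR with hR | ⟨hR, -⟩
    · rw [hR] at hp hq
      exact hs.uniq p hp q hq hpq
    · rw [hR, Finset.mem_insert] at hp hq
      rcases hp with rfl | hp <;> rcases hq with rfl | hq
      · rfl
      · have := hs.lt q hq; simp only at hpq; omega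
      · have := hs.lt p hp; simp only at hpq; omega
      · exact hs.uniq p hp q hq hpq
  · intro t ht
    rcases hR with hR | ⟨hR, -⟩
    · rw [hR]; exact hcol0 t ht
    · rw [hR, hcol0 t ht]
      constructor
      · rintro ⟨p, hp, h⟩
        exact ⟨p, Finset.mem_insert_of_mem hp, h⟩
      · rintro ⟨p, hp, h⟩
        rw [Finset.mem_insert] at hp
        rcases hp with rfl | hp
        · exfalso
          have : y ∈ t.1.1 := by rw [h]; simp
          exact lt_irrefl _ (hbd t ht y this)
        · exact ⟨p, hp, h⟩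
  · intro t ht x hx
    have := hbd t ht x hx
    omega
  · intro w
    have hm : (redSet s.h w).card ≤ (redSet (step k σ n s).h w).card :=
      Finset.card_le_card (redSet_mono (step_h_mono k σ n s) w)
    rcases hR with hR | ⟨hR, hc⟩
    · rw [hR]
      rcases hs.few w with h | h
      · exact Or.inl h
      · right; omega
    · rw [hR, cnt_insert hnot]
      by_cases hw : v = w
      · subst hw
        simp only [if_true]
        right; omega
      · simp only [hw, if_false, add_zero]
        rcases hs.few w with h | h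
        · exact Or.inl h
        · right; omega

lemma inv_run (k : ℕ) (σ : List (P × Bool) → P) (n : ℕ) : Inv k (run k σ n) := by
  induction n with
  | zero =>
    refine ⟨?_, ?_, ?_, ?_, ?_⟩ <;> simp [run, cnt]
  | succ n ih => exact inv_step k σ n _ ih

lemma run_h_mono (k : ℕ) (σ : List (P × Bool) → P) {m n : ℕ} (hmn : m ≤ n) :
    ∀ t ∈ (run k σ m).h, t ∈ (run k σ n).h := by
  induction hmn with
  | refl => exact fun t ht => ht
  | step _ ih => exact fun t ht => step_h_mono k σ _ _ t (ih t ht)

lemma run_R_mono (k : ℕ) (σ : List (P × Bool) → P) {m n : ℕ} (hmn : m ≤ n) :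
    (run k σ m).R ⊆ (run k σ n).R := by
  induction hmn with
  | refl => exact subset_rfl
  | step _ ih => exact ih.trans (step_R_mono k σ _ _)

/-- the pair asked at turn `n` -/
noncomputable def ask (k : ℕ) (σ : List (P × Bool) → P) (n : ℕ) : P := σ (run k σ n).h

/-- the answer given at turn `n` -/
noncomputable def col (k : ℕ) (σ : List (P × Bool) → P) (n : ℕ) : Bool :=
  ans (run k σ n).R (ask k σ n)

lemma run_succ_h (k : ℕ) (σ : List (P × Bool) → P) (n : ℕ) :
    (run k σ (n + 1)).h = (run k σ n).h ++ [(ask k σ n, col k σ n)] := rfl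

lemma mem_run_h (k : ℕ) (σ : List (P × Bool) → P) (n : ℕ) (t : P × Bool) :
    t ∈ (run k σ n).h ↔ ∃ m < n, t = (ask k σ m, col k σ m) := by
  induction n with
  | zero => simp [run]
  | succ n ih =>
    rw [run_succ_h, List.mem_append, ih, List.mem_singleton]
    constructor
    · rintro (⟨m, hm, h⟩ | h)
      · exact ⟨m, by omega, h⟩
      · exact ⟨n, by omega, h⟩
    · rintro ⟨m, hm, h⟩
      rcases Nat.lt_succ_iff_lt_or_eq.1 hm with hm | rfl
      · exact Or.inl ⟨m, hm, h⟩
      · exact Or.inr h

lemma progress (k : ℕ) (σ : List (P × Bool) → P) (n v : ℕ) (hv : (Nat.unpair n).1 = v)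
    (hlt : cnt (run k σ n).R v + v < k + (redSet (run k σ (n + 1)).h v).card) :
    cnt (run k σ (n + 1)).R v = cnt (run k σ n).R v + 1 := by
  have hI := inv_run k σ n
  subst hv
  have : (run k σ (n + 1)).R = insert ((Nat.unpair n).1,
      (run k σ n).N + bnd (σ (run k σ n).h).1 + (Nat.unpair n).1 + 1) (run k σ n).R := by
    show (step k σ n (run k σ n)).R = _
    simp only [step]
    rw [if_pos]
    exact hlt
  rw [this, cnt_insert]
  · simp
  · intro hc
    have := (hI.lt _ hc).2
    simp only at this
    omega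

/-- eventually the red set of `v` is stable and `v` has enough children -/
lemma eventually_good (k : ℕ) (σ : List (P × Bool) → P) (v : ℕ) :
    ∃ n, (∀ m, redSet (run k σ m).h v ⊆ redSet (run k σ n).h v) ∧
      k + (redSet (run k σ n).h v).card ≤ cnt (run k σ n).R v + v := by
  -- stabilisation of the red set
  obtain ⟨n₀, hn₀⟩ : ∃ n₀, ∀ m, (redSet (run k σ m).h v).card ≤ (redSet (run k σ n₀).h v).card := by
    have hb : BddAbove (Set.range fun m => (redSet (run k σ m).h v).card) := by
      refine ⟨v, ?_⟩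
      rintro _ ⟨m, rfl⟩
      calc (redSet (run k σ m).h v).card ≤ (Finset.range v).card :=
            Finset.card_le_card (Finset.filter_subset _ _)
        _ = v := Finset.card_range v
    obtain ⟨n₀, hn₀⟩ := Nat.sSup_mem (Set.range_nonempty _) hb
    refine ⟨n₀, fun m => ?_⟩
    have h1 : (redSet (run k σ n₀).h v).card = _ := hn₀
    rw [h1]
    exact le_csSup hb ⟨m, rfl⟩
  have hstab : ∀ m, n₀ ≤ m → redSet (run k σ m).h v = redSet (run k σ n₀).h v := by
    intro m hm
    symm
    exact Finset.eq_of_subset_of_card_le (redSet_mono (run_h_mono k σ hm) v) (hn₀ m)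
  have hsub : ∀ m n, n₀ ≤ n → redSet (run k σ m).h v ⊆ redSet (run k σ n).h v := by
    intro m n hn
    rcases le_total m n with h | h
    · exact redSet_mono (run_h_mono k σ h) v
    · rw [hstab m (hn.trans h), hstab n hn]
  -- children keep coming
  have key : ∀ j : ℕ, ∃ n, n₀ ≤ n ∧ (j ≤ cnt (run k σ n).R v ∨
      k + (redSet (run k σ n).h v).card ≤ cnt (run k σ n).R v + v) := by
    intro j
    induction j with
    | zero => exact ⟨n₀, le_rfl, Or.inl (Nat.zero_le _)⟩
    | succ j ih =>
      obtain ⟨n, hn, h⟩ := ih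
      rcases h with h | h
      · set m := Nat.pair v n with hm
        have hnm : n ≤ m := Nat.right_le_pair v n
        have h1 : cnt (run k σ n).R v ≤ cnt (run k σ m).R v := cnt_mono (run_R_mono k σ hnm) v
        by_cases hc : cnt (run k σ m).R v + v < k + (redSet (run k σ (m + 1)).h v).card
        · have := progress k σ m v (by simp [hm]) hc
          exact ⟨m + 1, by omega, Or.inl (by omega)⟩
        · refine ⟨m, by omega, Or.inr ?_⟩
          rw [hstab (m + 1) (by omega)] at hc
          rw [hstab m (by omega)]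
          omega
      · exact ⟨n, hn, Or.inr h⟩
  obtain ⟨n, hn, h⟩ := key (k + v)
  refine ⟨n, fun m => hsub m n hn, ?_⟩
  rcases h with h | h
  · have : (redSet (run k σ n).h v).card ≤ v := by
      calc (redSet (run k σ n).h v).card ≤ (Finset.range v).card :=
            Finset.card_le_card (Finset.filter_subset _ _)
        _ = v := Finset.card_range v
    omega
  · exact h

/-- Claim A: every vertex has at least `k` neighbours along pairs that are green or white. -/
lemma claimA (k : ℕ) (σ : List (P × Bool) → P) (v : ℕ) :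
    ∃ T : Finset ℕ, k ≤ T.card ∧ ∀ w ∈ T, w ≠ v ∧
      ∀ m, (ask k σ m).1 = s(v, w) → col k σ m = true := by
  obtain ⟨n, hsub, hle⟩ := eventually_good k σ v
  have hI := inv_run k σ n
  set A := Finset.range v \ redSet (run k σ n).h v with hA
  set B := (((run k σ n).R).filter (fun p => p.1 = v)).image Prod.snd with hB
  have hAc : A.card + (redSet (run k σ n).h v).card = v := by
    have hs : redSet (run k σ n).h v ⊆ Finset.range v := Finset.filter_subset _ _
    rw [hA, Finset.card_sdiff_add_card_eq_card hs, Finset.card_range]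
  have hBc : B.card = cnt (run k σ n).R v := by
    rw [hB, Finset.card_image_of_injOn]
    · rfl
    · intro p hp q hq hpq
      exact hI.uniq p (Finset.mem_filter.1 hp).1 q (Finset.mem_filter.1 hq).1 hpq
  have hBm : ∀ w ∈ B, (v, w) ∈ (run k σ n).R := by
    intro w hw
    rw [hB, Finset.mem_image] at hw
    obtain ⟨p, hp, rfl⟩ := hw
    rw [Finset.mem_filter] at hp
    rw [← hp.2]
    exact hp.1
  have hdisj : Disjoint A B := by
    rw [Finset.disjoint_left]
    intro w hwA hwB
    have h1 := (hI.lt _ (hBm w hwB)).1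
    have h2 := Finset.mem_range.1 (Finset.mem_sdiff.1 hwA).1
    simp only at h1
    omega
  refine ⟨A ∪ B, ?_, ?_⟩
  · rw [Finset.card_union_of_disjoint hdisj]; omega
  · intro w hw
    rcases Finset.mem_union.1 hw with hw | hw
    · obtain ⟨h1, h2⟩ := Finset.mem_sdiff.1 hw
      refine ⟨(Finset.mem_range.1 h1).ne, fun m hm => ?_⟩
      by_contra hc
      apply h2
      apply hsub (m + 1)
      simp only [redSet, Finset.mem_filter]
      refine ⟨h1, (ask k σ m, col k σ m), (mem_run_h k σ _ _).2 ⟨m, by omega, rfl⟩, ?_, ?_⟩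
      · rw [hm, Sym2.eq_swap]
      · simpa using hc
    · have h1 := hBm w hw
      refine ⟨(hI.lt _ h1).1.ne', fun m hm => ?_⟩
      have hI' := inv_run k σ (max n (m + 1))
      have := hI'.col (ask k σ m, col k σ m) ((mem_run_h k σ _ _).2 ⟨m, by omega, rfl⟩)
      exact this.2 ⟨(v, w), run_R_mono k σ (le_max_left _ _) h1, hm⟩

/-- Claim B: the larger end of a white pair has fewer than `k` green neighbours. -/
lemma claimB (k : ℕ) (hk : 2 ≤ k) (σ : List (P × Bool) → P) (a b : ℕ) (hab : a < b)
    (hw : ∀ m, (ask k σ m).1 ≠ s(a, b)) (T : Finset ℕ)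
    (hT : ∀ w ∈ T, ∃ m, (ask k σ m).1 = s(b, w) ∧ col k σ m = true) : T.card < k := by
  choose! f hf using hT
  set n := T.sup f + 1 with hn
  have hI := inv_run k σ n
  have hmem : ∀ w ∈ T, (ask k σ (f w), col k σ (f w)) ∈ (run k σ n).h := by
    intro w hwT
    refine (mem_run_h k σ _ _).2 ⟨f w, ?_, rfl⟩
    have := Finset.le_sup (f := f) hwT
    omega
  have hcase : ∀ w ∈ T, (b, w) ∈ (run k σ n).R ∨ (w, b) ∈ (run k σ n).R := by
    intro w hwT
    obtain ⟨p, hp, h⟩ := (hI.col _ (hmem w hwT)).1 (hf w hwT).2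
    simp only at h
    rw [(hf w hwT).1, Sym2.eq_iff] at h
    rcases h with ⟨h1, h2⟩ | ⟨h1, h2⟩
    · left; rw [h1, h2]; exact hp
    · right; rw [h1, h2]; exact hp
  set Tc := T.filter (fun w => (b, w) ∈ (run k σ n).R) with hTc
  set Tp := T.filter (fun w => (w, b) ∈ (run k σ n).R) with hTp
  have h1 : T.card ≤ Tc.card + Tp.card := by
    refine le_trans (Finset.card_le_card ?_) (Finset.card_union_le Tc Tp)
    intro w hwT
    rcases hcase w hwT with h | h
    · exact Finset.mem_union_left _ (Finset.mem_filter.2 ⟨hwT, h⟩)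
    · exact Finset.mem_union_right _ (Finset.mem_filter.2 ⟨hwT, h⟩)
  have h2 : Tc.card ≤ cnt (run k σ n).R b := by
    unfold cnt
    refine Finset.card_le_card_of_injOn (fun w => (b, w)) ?_ ?_
    · intro w hwc
      exact Finset.mem_coe.2 (Finset.mem_filter.2 ⟨(Finset.mem_filter.1 hwc).2, rfl⟩)
    · intro w _ w' _ h
      exact (Prod.ext_iff.1 h).2
  have h3 : Tp.card ≤ 1 := by
    rw [Finset.card_le_one]
    intro w hw1 w' hw2
    have := hI.uniq _ (Finset.mem_filter.1 hw1).2 _ (Finset.mem_filter.1 hw2).2 rfl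
    exact (Prod.ext_iff.1 this).1
  have h4 : (redSet (run k σ n).h b).card + Tp.card + 1 ≤ b := by
    have hd : Disjoint (redSet (run k σ n).h b) Tp := by
      rw [Finset.disjoint_left]
      intro w hw1 hw2
      simp only [redSet, Finset.mem_filter] at hw1
      obtain ⟨-, t, ht, ht1, ht2⟩ := hw1
      have := (hI.col t ht).2 ⟨(w, b), (Finset.mem_filter.1 hw2).2, ht1⟩
      rw [ht2] at this
      exact Bool.false_ne_true this
    have ha : a ∉ redSet (run k σ n).h b ∪ Tp := by
      intro hc
      rcases Finset.mem_union.1 hc with hc | hc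
      · simp only [redSet, Finset.mem_filter] at hc
        obtain ⟨-, t, ht, ht1, -⟩ := hc
        obtain ⟨m, -, rfl⟩ := (mem_run_h k σ _ _).1 ht
        exact hw m ht1
      · have := (hf a (Finset.mem_filter.1 hc).1).1
        rw [Sym2.eq_swap] at this
        exact hw _ this
    have hsub : insert a (redSet (run k σ n).h b ∪ Tp) ⊆ Finset.range b := by
      intro x hx
      rcases Finset.mem_insert.1 hx with rfl | hx
      · exact Finset.mem_range.2 hab
      · rcases Finset.mem_union.1 hx with hx | hx
        · exact Finset.filter_subset _ _ hx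
        · exact Finset.mem_range.2 (hI.lt _ (Finset.mem_filter.1 hx).2).1
    have := Finset.card_le_card hsub
    rw [Finset.card_insert_of_notMem ha, Finset.card_union_of_disjoint hd, Finset.card_range] at this
    exact this
  rcases hI.few b with h | h <;> omega

end Pool.Agent.Lib.MP_3b52ff_co
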